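import Mathlib
import Pool.Agent.Y1.SC.Defs
import Pool.Agent.Y137.HD.Defs
import Pool.Agent.TH170.GS.Rel

/-!
# The standard conjecture of Hodge type for all varieties which specialize to abelian varieties of a
given slope type, and for the products of all unrelated varieties with abelian varieties: definitions
-/

set_option autoImplicit false

open CategoryTheory AlgebraicGeometry

namespace Pool.Agent.Q29.HT

open Polynomial Pool.Agent.H914 Pool.Agent.H914.VarClass Pool.Agent.H914.VarClass.Obj
  Pool.Agent.H914.WeilCohomology Pool.Agent.H281R3.HT Pool.Agent.W552 Pool.Agent.W484.HS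
  Pool.Agent.TH132.A Pool.Agent.Y1.CT Pool.Agent.Y1.SC

/-- `HodgeTypeTimes K q F`: the following holds for every algebraically closed field `k`, every
class `𝒱` of smooth projective varieties over `k` closed under products, every Weil cohomology `W`
with algebraically closed coefficient field, every polarized `A` with an endomorphism `f` which is the
Frobenius endomorphism, relative to the field with `q ^ s` elements, of an abelian variety of type `F`
(`IsAbelianFrobenius`), and every `Z` with a Frobenius endomorphism `g` relative to the same field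
whose eigenvalues are unrelated to the fields `K i`:

* each divisor `C` on `A × Z` is homologically equivalent to a sum `D × Z + A × B` of divisors from
  the factors;
* if `C` satisfies hard Lefschetz for `A × Z` then `D` satisfies hard Lefschetz for `A`, `B`
  satisfies hard Lefschetz for `Z`, and if the standard conjecture of Hodge type holds for `A` and
  `D`, then it holds for `A × Z` and `C` if and only if it holds for `Z` and `B` (the class of the
  fundamental cycle of `A × Z` is assumed to be nonzero). -/
def HodgeTypeTimes {I : Type} (K : I → Type) [∀ i, Field (K i)] (q : ℕ) (F : I → ℤ[X]) : Prop :=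
  ∀ (k : Type) [Field k] [IsAlgClosed k] (𝒱 : VarClass k) (ops : CycleOps 𝒱)
    (W : WeilCohomology.{0, 0} ops) [IsAlgClosed W.K] (s : ℕ), 0 < s →
    ∀ (A : Polarized 𝒱) (Z : 𝒱.Obj) (f : A.X ⟶ A.X) (g : Z ⟶ Z),
      IsAbelianFrobenius W q s F A f → UnrelatedEigen K (W.map g) →
      FrobeniusOnCycles W (A.X.prod Z) (pairMap f g) (q ^ s) →
      (∀ C, (A.X.prod Z).IsCyc 1 C → ∃ D B, IsSumOf W C D B) ∧
      (¬ HomEq W (A.X.prod Z).V.fundCycle 0 → ∀ C D B, (A.X.prod Z).IsCyc 1 C →
        IsSumOf W C D B → HardLefschetz W (A.X.prod Z) C → HardLefschetz W A.X D ∧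
          HardLefschetz W Z B ∧ (HodgeType W A.X D →
            (HodgeType W (A.X.prod Z) C ↔ HodgeType W Z B)))

section rings

universe u

open Pool.Agent.TH170 Pool.Agent.H204R3.CM Pool.Agent.W547.KB Pool.Agent.W547.HR
  Pool.Agent.W495.TA Pool.Agent.TH117.PO Pool.Agent.Y137.HD Module

/-- The standard conjecture of Hodge type for the ring `A` of algebraic cycles modulo homological
equivalence and the divisor `D`: for `2 j + m = n` and every `a ≠ 0` of codimension `j` which is
primitive, `D ^ (m + 1) * a = 0`, the number `(-1) ^ j * deg (a * a * D ^ m)` is positive. -/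
def HodgePositive {A : Type u} [CommRing A] [Algebra ℚ A] (n : ℕ) (gr : ℕ → Submodule ℚ A)
    (deg : A →ₗ[ℚ] ℚ) (D : A) : Prop :=
  ∀ j m : ℕ, 2 * j + m = n → ∀ a ∈ gr j, D ^ (m + 1) * a = 0 → a ≠ 0 →
    0 < (-1 : ℚ) ^ j * deg (a * (a * D ^ m))

/-- The standard conjecture of Hodge type for all abelian varieties `Y` over an algebraic closure of
the field with `p` elements which have the slope types `Φ i`, `M i`, and for **all** varieties over
arbitrary fields of characteristic `p` which specialize to them: here `A` is the ring of algebraic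
cycles modulo homological equivalence on such a variety, of dimension `n`, with the ample divisor `D`
which specializes to the polarization given by `α`. -/
def PositiveForTypes {p : ℕ} [Fact p.Prime] (ν : PadicAlgCl p ≃+* ℂ) {I : Type} (K : I → Type)
    [∀ i, Field (K i)] (M : ∀ i, (K i →+* ℂ) → ℤ) (Φ : ∀ i, Set (K i →+* ℂ)) : Prop :=
  ∀ (Ω : Type) [Field Ω] [CharZero Ω] [IsAlgClosed Ω]
    (C : (Y : RedAV p ν) → (κ : Type) → ((TM Ω Y) [⋀^κ]→ₗ[Ω] Ω) → Prop), IsCycleSystem Ω C →
    IsRosatiPositive Ω C → AreTate Ω C → ∀ Y : RedAV p ν, GS.OfTypes K M Φ Y →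
      ∀ α : Y.X.H1, IsPolar Y.X α →
        (∀ r m : ℕ, 2 * (2 * r + m) = finrank ℚ Y.X.H1 →
          ∀ z : (TM Ω Y) [⋀^Fin r × Fin 2]→ₗ[Ω] Ω, C Y (Fin r × Fin 2) z → z ≠ 0 →
            IsPrim α m z → IsPosClass α m z) ∧
        ∀ (A : Type) [CommRing A] [Algebra ℚ A] (n : ℕ) (gr : ℕ → Submodule ℚ A)
          (deg : A →ₗ[ℚ] ℚ) (D : A) (sp : ∀ r : ℕ, A → Form Ω Y r),
          Specializes C n gr D Y α sp → IsCycleRing n gr deg D → HodgePositive n gr deg D

end rings

end Pool.Agent.Q29.HT
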