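import Mathlib
import Pool.Agent.Q29.HT.Defs
import Pool.Agent.Y137.HD.Main
import Pool.Agent.TH117.PO.Full

/-!
# The conjecture of Hodge type for the varieties which specialize to `Y`
-/

set_option autoImplicit false
set_option linter.unusedSectionVars false
set_option linter.unusedVariables false

namespace Pool.Agent.Q29.HT

open NumberField Pool.Agent.H204R3.CM Pool.Agent.W547.KB Pool.Agent.W547.LD Pool.Agent.W547.HR
  Pool.Agent.W495.TA Pool.Agent.TH117.PO Module Equiv Pool.Agent.Y137.HD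
open scoped TensorProduct

universe u

variable {p : ℕ} [Fact p.Prime] {ν : PadicAlgCl p ≃+* ℂ} {Ω : Type} [Field Ω] [CharZero Ω]
  {C : (Y : RedAV p ν) → (κ : Type) → ((TM Ω Y) [⋀^κ]→ₗ[Ω] Ω) → Prop}
  {A : Type u} [CommRing A] [Algebra ℚ A] {n : ℕ} {gr : ℕ → Submodule ℚ A} {deg : A →ₗ[ℚ] ℚ} {D : A}
  {Y : RedAV p ν} {α : Y.X.H1} {sp : ∀ r : ℕ, A → Form Ω Y r}

/-- The positivity for `Y` implies the positivity for the varieties that specialize to `Y`. -/
theorem hodgePositive_of (h : Specializes C n gr D Y α sp) (hR : IsCycleRing n gr deg D)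
    (hpos : ∀ (r m : ℕ), 2 * (2 * r + m) = finrank ℚ Y.X.H1 →
      ∀ z : (TM Ω Y) [⋀^Fin r × Fin 2]→ₗ[Ω] Ω, C Y (Fin r × Fin 2) z → z ≠ 0 → IsPrim α m z →
        IsPosClass α m z) : HodgePositive n gr deg D := by
  intro j m hjm a ha hprim ha0
  have hf0 : (show (TM Ω Y) [⋀^Fin j × Fin 2]→ₗ[Ω] Ω from sp j a) ≠ 0 := fun h1 =>
    ha0 (h.inj j a ha fun v => by
      change res (show (TM Ω Y) [⋀^Fin j × Fin 2]→ₗ[Ω] Ω from sp j a) v = 0
      rw [h1]
      rfl)
  have hzero : ∀ i v, res (sp i (0 : A)) v = 0 := by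
    intro i v
    have h1 := h.smul i 0 0 (gr i).zero_mem v
    rw [smul_zero, Rat.cast_zero, zero_mul] at h1
    exact h1
  have hfp : IsPrim α m (show (TM Ω Y) [⋀^Fin j × Fin 2]→ₗ[Ω] Ω from sp j a) := by
    intro v
    obtain ⟨c, hc, h1⟩ := h.mul_pow hR ha (m + 1)
    have h3 := h1 (fun k => v ((join j (m + 1)).symm k))
    rw [mul_comm a, hprim, hzero] at h3
    have h5 : (fun k => (fun k => v ((join j (m + 1)).symm k)) (join j (m + 1) k)) = v := by
      funext k
      simp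
    rw [h5] at h3
    have hc' : (c : Ω) ≠ 0 := by exact_mod_cast hc.ne'
    exact (mul_eq_zero.1 h3.symm).resolve_left hc'
  obtain ⟨c, hc, h1⟩ := hpos j m (by rw [← h.dim, hjm]) _ (h.cycle j a ha) hf0 hfp
  obtain ⟨c1, hc1, h2⟩ := h.sq_mul_pow hR ha m
  obtain ⟨c2, hc2, h3⟩ := h.pow hR (j + (j + m))
  have hmem1 : a * (a * D ^ m) ∈ gr (j + (j + m)) := hR.mul_mem ha (hR.mul_mem ha (hR.pow_mem m))
  have hmem2 : D ^ (j + (j + m)) ∈ gr (j + (j + m)) := hR.pow_mem _
  set t : ℚ := c * c1 / c2 with ht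
  have ht0 : 0 < t := div_pos (mul_pos hc hc1) hc2
  have hc2' : (c2 : Ω) ≠ 0 := by exact_mod_cast hc2.ne'
  have key : ((-1 : ℚ) ^ j) • (a * (a * D ^ m)) + (-t) • D ^ (j + (j + m)) = 0 := by
    refine h.inj _ _ ((gr _).add_mem ((gr _).smul_mem _ hmem1) ((gr _).smul_mem _ hmem2)) fun v => ?_
    rw [h.add _ _ ((gr _).smul_mem _ hmem1) _ ((gr _).smul_mem _ hmem2), h.smul _ _ _ hmem1,
      h.smul _ _ _ hmem2]
    have e1 : (sp (j + (j + m)) (a * (a * D ^ m))).val v = (c1 : Ω) *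
        altSum (times (res (sp j a)) (times (res (sp j a))
          (powE (castE Ω (riemannForm Y.X α)) m)))
          (fun k => v (join j (j + m) (Sum.map id (join j m) k))) := h2 v
    have e2 : (sp (j + (j + m)) (D ^ (j + (j + m)))).val v = (c2 : Ω) *
        altSum (powE (castE Ω (riemannForm Y.X α)) (j + (j + m))) v := h3 v
    have e3 := h1 (fun k => v (join j (j + m) (Sum.map id (join j m) k)))
    rw [pow_split] at e3
    rw [e1, e2, ht]
    push_cast
    have e4 : ((-1 : Ω)) ^ j * altSum (times (res (sp j a)) (times (res (sp j a))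
          (powE (castE Ω (riemannForm Y.X α)) m)))
          (fun k => v (join j (j + m) (Sum.map id (join j m) k))) =
        (c : Ω) * altSum (powE (castE Ω (riemannForm Y.X α)) (j + (j + m))) v := e3
    rw [mul_left_comm, e4]
    field_simp
    ring
  have h5 := congrArg deg key
  rw [map_add, map_smul, map_smul, map_zero, smul_eq_mul, smul_eq_mul] at h5
  have h9 := hR.ample
  rw [show n = j + (j + m) by omega] at h9
  have h6 : (-1 : ℚ) ^ j * deg (a * (a * D ^ m)) = t * deg (D ^ (j + (j + m))) := by linarith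
  rw [h6]
  exact mul_pos ht0 h9

/-- The positivity for all abelian varieties of the types, and for all varieties that specialize to
them. -/
theorem positiveForTypes_of {I : Type} (K : I → Type) [∀ i, Field (K i)]
    (M : ∀ i, (K i →+* ℂ) → ℤ) (Φ : ∀ i, Set (K i →+* ℂ))
    (h : ∀ Y : RedAV p ν, Pool.Agent.TH170.GS.OfTypes K M Φ Y → ∃ Z : RedAV p ν,
      Pool.Agent.TH117.BL.HasElementaryRelations Z ∧
        Pool.Agent.TH117.BL.IsPowersTimesSupersingular Z Y) : PositiveForTypes ν K M Φ := by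
  intro Ω _ _ _ C hC hR hT Y hY α hα
  have hpos : ∀ r m : ℕ, 2 * (2 * r + m) = finrank ℚ Y.X.H1 →
      ∀ z : (TM Ω Y) [⋀^Fin r × Fin 2]→ₗ[Ω] Ω, C Y (Fin r × Fin 2) z → z ≠ 0 →
        IsPrim α m z → IsPosClass α m z := fun r m hrm z hz hz0 hprim =>
    positive_full hC hR hT (Or.inr (h Y hY)) hα hrm hz hz0 hprim
  exact ⟨hpos, fun A _ _ n gr deg D sp hS hR => hodgePositive_of hS hR hpos⟩

end Pool.Agent.Q29.HT
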