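import Mathlib
import Pool.Agent.Q29.HT.Defs
import Pool.Agent.TH132.A.Hodge
import Pool.Agent.Y1.SC.Main

/-!
# The conjecture of Hodge type for the products of unrelated varieties with abelian varieties
-/

set_option autoImplicit false
set_option linter.unusedSectionVars false
set_option linter.unusedVariables false

open CategoryTheory AlgebraicGeometry

universe u v

namespace Pool.Agent.Q29.HT

open Module Polynomial Pool.Agent.H914 Pool.Agent.H914.VarClass Pool.Agent.H914.VarClass.Obj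
  Pool.Agent.H914.WeilCohomology Pool.Agent.H281R3.HT Pool.Agent.W552 Pool.Agent.W484.HS
  Pool.Agent.TH132.A Pool.Agent.Y1.CT Pool.Agent.Y1.SC

variable {k : Type u} [Field k] {𝒱 : VarClass k} {ops : CycleOps 𝒱}
  {W : WeilCohomology.{u, v} ops}

/-- The conjecture of Hodge type depends only on the class of the divisor. -/
theorem hodgeType_congr {X : 𝒱.Obj} {C C' : X.Cycles} (hC : X.IsCyc 1 C) (hC' : X.IsCyc 1 C')
    (h : W.cl X C = W.cl X C') (hH : HodgeType W X C) : HodgeType W X C' := by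
  have hpow : ∀ n z, W.cl X (divPow ops C n z) = W.cl X (divPow ops C' n z) := by
    intro n z
    rw [cl_divPow, cl_divPow, h]
  intro j hj z hz hprim hz0
  have h1 := hH j hj z hz (by rw [hpow]; exact hprim) hz0
  have h2 : X.V.degCycle (ops.mul z (divPow ops C (X.dim - 2 * j) z)) =
      X.V.degCycle (ops.mul z (divPow ops C' (X.dim - 2 * j) z)) := by
    have e : ∀ E : X.Cycles, X.IsCyc 1 E → ((X.V.degCycle
        (ops.mul z (divPow ops E (X.dim - 2 * j) z)) : ℚ) : W.K) =
        W.tr X (W.cl X z * W.cl X (divPow ops E (X.dim - 2 * j) z)) := by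
      intro E hE
      have h3 := ops.mul_mem hz (divPow_mem (ops := ops) hE (X.dim - 2 * j) hz)
      rw [show j + (j + (X.dim - 2 * j)) = X.dim by omega] at h3
      rw [← W.tr_cl h3, W.cl_mul]
    have h4 := e C hC
    rw [hpow, ← e C' hC'] at h4
    exact_mod_cast h4
  rwa [h2] at h1

/-- The reduction of the conjecture of Hodge type for `A × Z` to the one for `Z`. -/
theorem hodgeTypeTimes_of {Z : 𝒱.Obj} {I : Type} {q : ℕ} (hq : 1 < q) {F : I → ℤ[X]}
    {R : ℂ → Prop} (hR : NoRel F q R) [IsAlgClosed W.K] {s : ℕ} (hs : 0 < s)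
    {A : Polarized 𝒱} {f : A.X ⟶ A.X} {g : Z ⟶ Z} (hA : IsAbelianFrobenius W q s F A f)
    (hZ : ∃ χ : ℚ[X], χ ≠ 0 ∧ (∀ (ρ : W.K) (c : W.H Z), c ≠ 0 → W.map g c = ρ • c →
      aeval ρ χ = 0) ∧ ∀ ρ : ℂ, aeval ρ χ = 0 → R ρ)
    (hF : FrobeniusOnCycles W (A.X.prod Z) (pairMap f g) (q ^ s)) :
    (∀ C, (A.X.prod Z).IsCyc 1 C → ∃ D B, IsSumOf W C D B) ∧
      (¬ HomEq W (A.X.prod Z).V.fundCycle 0 → ∀ C D B, (A.X.prod Z).IsCyc 1 C →
        IsSumOf W C D B → HardLefschetz W (A.X.prod Z) C → HardLefschetz W A.X D ∧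
          HardLefschetz W Z B ∧ (HodgeType W A.X D →
            (HodgeType W (A.X.prod Z) C ↔ HodgeType W Z B))) := by
  have hnum : HomEqNum W A.X := homEqNum_abelian hq hR hs hA
  have hmix : ∀ z, AS W (A.X.prod Z) z → z ∈ mixSpan W A.X Z := by
    intro z hz
    refine AS.ind (p := fun z => z ∈ mixSpan W A.X Z) ?_
      (fun x y hx hy => Submodule.add_mem _ hx hy) hz
    rintro c _ ⟨z, hz, rfl⟩
    exact alg_mem_mix hq hR hs hA hZ hF c z hz
  have htens : ∀ z, AS W (A.X.prod Z) z → z ∈ tens W A.X Z := fun z hz =>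
    mem_tens hnum hz (hmix z hz)
  have hsplit : ClSplit W A.X Z := clSplit_of_tens htens
  refine ⟨fun C hC => ?_, fun h1 C D B hC hS hHL => ?_⟩
  · obtain ⟨D, B, hD, hB, hDB⟩ := div_split hsplit hC
    exact ⟨D, B, hD, hB, by rw [HomEq, hDB, map_add, W.cl_pull, W.cl_pull]⟩
  · obtain ⟨hD, hB, hDB⟩ := hS
    have hDB' := hDB
    rw [HomEq, map_add, W.cl_pull, W.cl_pull] at hDB
    rw [HomEq, W.cl_fund, map_zero] at h1
    have hX1 : (1 : W.H A.X) ≠ 0 := by
      intro h0
      apply h1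
      rw [← map_one (W.map (fst A.X Z)), h0, map_zero]
    have hU1 : (1 : W.H Z) ≠ 0 := by
      intro h0
      apply h1
      rw [← map_one (W.map (snd A.X Z)), h0, map_zero]
    have hHX := hl_left hD hB hDB hHL hU1
    have hHU := hl_right hB hD hDB hHL hX1
    refine ⟨hHX, hHU, fun hH => ?_⟩
    obtain ⟨f', F', hf'⟩ := exists_lw hD hHX
    obtain ⟨g', G', hg'⟩ := exists_lw hB hHU
    have hst : Stable W A.X f' := stable_of_lefschetzA F'.hD F'.sl2
      (lefschetzA_of_D hD hHX hnum)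
    have hC' : (A.X.prod Z).IsCyc 1 (ops.pull (fst A.X Z) D + ops.pull (snd A.X Z) B) :=
      SmVar.IsCyc.add (ops.pull_mem _ hD) (ops.pull_mem _ hB)
    constructor
    · intro h
      exact hodge_of_prod F' G' hH hX1 (hodgeType_congr hC hC' hDB' h)
    · intro h
      exact hodgeType_congr hC' hC hDB'.symm
        (hodge_prod_of htens F' hf' hHX hst hH G' hg' h)

theorem hodgeTypeTimes {I : Type} {K : I → Type} [∀ i, Field (K i)] {q : ℕ} (hq : 1 < q)
    {F : I → ℤ[X]} (hR : NoRel F q (Unrelated K)) : HodgeTypeTimes K q F := by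
  intro k _ _ 𝒱 ops W _ s hs A Z f g hA hZ hF
  exact hodgeTypeTimes_of hq hR hs hA hZ hF

end Pool.Agent.Q29.HT
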